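import Pool.Agent.Helper17.R8.Sheet

/-! # Row BND of `Pool.Helper17.R8` (MP_798d7d_nt, rank eight): size of the members of the box -/

set_option autoImplicit false

namespace Pool.Helper17.R8.B84

open Pool.Helper17.R8

/-- `f` is at most `C m ^ k` on the box of size `m` -/
def BO (k : ℕ) (f : (Fin 6 → ℕ) × ℕ → ℤ) : Prop :=
  ∃ C : ℤ, 0 ≤ C ∧ ∀ m : ℕ, 1 ≤ m → ∀ T ∈ Box m, |f T| ≤ C * (m : ℤ) ^ k

theorem BO.mono {j k : ℕ} {f : (Fin 6 → ℕ) × ℕ → ℤ} (h : BO j f) (hjk : j ≤ k) : BO k f := by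
  obtain ⟨C, hC, H⟩ := h
  refine ⟨C, hC, fun m hm T hT => (H m hm T hT).trans ?_⟩
  have hm1 : (1 : ℤ) ≤ (m : ℤ) := by exact_mod_cast hm
  exact mul_le_mul_of_nonneg_left (pow_le_pow_right₀ hm1 hjk) hC

theorem BO.const (k : ℕ) (c : ℤ) : BO k (fun _ => c) := by
  refine ⟨|c|, abs_nonneg c, fun m hm T _ => ?_⟩
  have hm1 : (1 : ℤ) ≤ (m : ℤ) ^ k := one_le_pow₀ (by exact_mod_cast hm)
  have := mul_le_mul_of_nonneg_left hm1 (abs_nonneg c)
  linarith

theorem BO.add {k : ℕ} {f g : (Fin 6 → ℕ) × ℕ → ℤ} (hf : BO k f) (hg : BO k g) :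
    BO k (fun T => f T + g T) := by
  obtain ⟨C, hC, H⟩ := hf
  obtain ⟨D, hD, G⟩ := hg
  refine ⟨C + D, by linarith, fun m hm T hT => ?_⟩
  have h1 := H m hm T hT
  have h2 := G m hm T hT
  have h3 := abs_add_le (f T) (g T)
  rw [add_mul]
  linarith

theorem BO.neg {k : ℕ} {f : (Fin 6 → ℕ) × ℕ → ℤ} (hf : BO k f) : BO k (fun T => -(f T)) := by
  obtain ⟨C, hC, H⟩ := hf
  refine ⟨C, hC, fun m hm T hT => ?_⟩
  rw [abs_neg]
  exact H m hm T hT

theorem BO.sub {k : ℕ} {f g : (Fin 6 → ℕ) × ℕ → ℤ} (hf : BO k f) (hg : BO k g) :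
    BO k (fun T => f T - g T) := by
  have h := hf.add hg.neg
  have e : (fun T => f T - g T) = fun T => f T + -(g T) := by
    funext T
    ring
  rw [e]
  exact h

theorem BO.mul {j k l : ℕ} {f g : (Fin 6 → ℕ) × ℕ → ℤ} (hf : BO j f) (hg : BO k g)
    (hl : j + k ≤ l) : BO l (fun T => f T * g T) := by
  apply BO.mono _ hl
  obtain ⟨C, hC, H⟩ := hf
  obtain ⟨D, hD, G⟩ := hg
  refine ⟨C * D, mul_nonneg hC hD, fun m hm T hT => ?_⟩
  have h1 := H m hm T hT
  have h2 := G m hm T hT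
  rw [abs_mul, pow_add]
  calc |f T| * |g T| ≤ (C * (m : ℤ) ^ j) * (D * (m : ℤ) ^ k) :=
        mul_le_mul h1 h2 (abs_nonneg _) (le_trans (abs_nonneg _) h1)
    _ = C * D * ((m : ℤ) ^ j * (m : ℤ) ^ k) := by ring

theorem BO.cmul {k : ℕ} {f : (Fin 6 → ℕ) × ℕ → ℤ} (c : ℤ) (hf : BO k f) :
    BO k (fun T => c * f T) :=
  (BO.const 0 c).mul hf (by omega)

theorem BO.sum {ι : Type} (F : Finset ι) (k : ℕ) (f : ι → (Fin 6 → ℕ) × ℕ → ℤ)
    (h : ∀ a ∈ F, BO k (f a)) : BO k (fun T => ∑ a ∈ F, f a T) := by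
  classical
  induction F using Finset.induction_on with
  | empty =>
    simp only [Finset.sum_empty]
    exact BO.const k 0
  | insert a F ha ih =>
    simp only [Finset.sum_insert ha]
    exact (h a (Finset.mem_insert_self _ _)).add
      (ih (fun b hb => h b (Finset.mem_insert_of_mem hb)))

theorem BO.prod {ι : Type} (F : Finset ι) (f : ι → (Fin 6 → ℕ) × ℕ → ℤ)
    (h : ∀ a ∈ F, BO 1 (f a)) : BO F.card (fun T => ∏ a ∈ F, f a T) := by
  classical
  induction F using Finset.induction_on with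
  | empty =>
    simp only [Finset.prod_empty]
    exact BO.const _ 1
  | insert a F ha ih =>
    simp only [Finset.prod_insert ha]
    exact (h a (Finset.mem_insert_self _ _)).mul
      (ih (fun b hb => h b (Finset.mem_insert_of_mem hb)))
      (by rw [Finset.card_insert_of_notMem ha]; omega)

theorem bo_u (i : Fin 6) : BO 1 (fun T => (ww T).1 i) := by
  have h : BO 1 (fun T => (T.1 i : ℤ)) := by
    refine ⟨1, by norm_num, fun m hm T hT => ?_⟩
    unfold Box at hT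
    rw [Finset.mem_product, Fintype.mem_piFinset] at hT
    have h1 := Finset.mem_range.1 (hT.1 i)
    rw [abs_of_nonneg (Int.natCast_nonneg _), one_mul, pow_one]
    exact_mod_cast h1.le
  exact (BO.const 1 (ub i)).add (BO.cmul MM h)

theorem bo_t : BO 6 (fun T => (ww T).2) := by
  have h : BO 6 (fun T => (T.2 : ℤ)) := by
    refine ⟨1, by norm_num, fun m hm T hT => ?_⟩
    unfold Box at hT
    rw [Finset.mem_product] at hT
    have h1 := Finset.mem_range.1 hT.2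
    rw [abs_of_nonneg (Int.natCast_nonneg _), one_mul]
    exact_mod_cast h1.le
  exact (BO.const 6 3).add (BO.cmul MM h)

theorem bo_s (i : Fin 8) : BO 1 (fun T => ss (ww T).1 i) := by
  fin_cases i
  · exact bo_u 0
  · exact bo_u 1
  · exact bo_u 2
  · exact bo_u 3
  · exact bo_u 4
  · exact bo_u 5
  · exact BO.const 1 1
  · exact (((((((bo_u 0).add (bo_u 1)).add (bo_u 2)).add (bo_u 3)).add (bo_u 4)).add
      (bo_u 5)).add (BO.const 1 1)).neg

theorem bo_e (k : ℕ) : BO k (fun T => ek (ss (ww T).1) k) := by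
  unfold ek
  apply BO.sum
  intro S hS
  have h := BO.prod S (fun i T => ss (ww T).1 i) (fun i _ => bo_s i)
  rw [(Finset.mem_powersetCard.1 hS).2] at h
  exact h

theorem bo_q4 : BO 6 (fun T => q4 (ek (ss (ww T).1)) (ww T).2) := by
  have e : (fun T => q4 (ek (ss (ww T).1)) (ww T).2) =
      fun T => ek (ss (ww T).1) 3 * ek (ss (ww T).1) 3 - 4 * (ww T).2 := by
    funext T
    unfold q4
    ring
  rw [e]
  exact ((bo_e 3).mul (bo_e 3) (by omega)).sub (BO.cmul 4 bo_t)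

theorem bo_q3 : BO 8 (fun T => q3 (ek (ss (ww T).1)) (ww T).2) := by
  have e : (fun T => q3 (ek (ss (ww T).1)) (ww T).2) =
      fun T => 2 * (ek (ss (ww T).1) 3 * ek (ss (ww T).1) 5) -
        4 * ((ww T).2 * ek (ss (ww T).1) 2 + ek (ss (ww T).1) 8) := by
    funext T
    unfold q3
    ring
  rw [e]
  exact (BO.cmul 2 ((bo_e 3).mul (bo_e 5) (by omega))).sub
    (BO.cmul 4 ((bo_t.mul (bo_e 2) (by omega)).add (bo_e 8)))

theorem bo_q2 : BO 10 (fun T => q2 (ek (ss (ww T).1)) (ww T).2) := by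
  have e : (fun T => q2 (ek (ss (ww T).1)) (ww T).2) =
      fun T => (ek (ss (ww T).1) 5 * ek (ss (ww T).1) 5 +
        2 * (ek (ss (ww T).1) 3 * ek (ss (ww T).1) 7)) -
        4 * ((ww T).2 * ek (ss (ww T).1) 4 + ek (ss (ww T).1) 8 * ek (ss (ww T).1) 2) := by
    funext T
    unfold q2
    ring
  rw [e]
  exact (((bo_e 5).mul (bo_e 5) (by omega)).add
    (BO.cmul 2 ((bo_e 3).mul (bo_e 7) (by omega)))).sub
    (BO.cmul 4 ((bo_t.mul (bo_e 4) (by omega)).add ((bo_e 8).mul (bo_e 2) (by omega))))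

theorem bo_q1 : BO 12 (fun T => q1 (ek (ss (ww T).1)) (ww T).2) := by
  have e : (fun T => q1 (ek (ss (ww T).1)) (ww T).2) =
      fun T => 2 * (ek (ss (ww T).1) 5 * ek (ss (ww T).1) 7) -
        4 * ((ww T).2 * (ek (ss (ww T).1) 6 - (ww T).2) +
          ek (ss (ww T).1) 8 * ek (ss (ww T).1) 4) := by
    funext T
    unfold q1
    ring
  rw [e]
  exact (BO.cmul 2 ((bo_e 5).mul (bo_e 7) (by omega))).sub
    (BO.cmul 4 ((bo_t.mul ((bo_e 6).sub bo_t) (by omega)).add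
      ((bo_e 8).mul (bo_e 4) (by omega))))

theorem bo_q0 : BO 14 (fun T => q0 (ek (ss (ww T).1)) (ww T).2) := by
  have e : (fun T => q0 (ek (ss (ww T).1)) (ww T).2) =
      fun T => ek (ss (ww T).1) 7 * ek (ss (ww T).1) 7 -
        4 * (ek (ss (ww T).1) 8 * (ek (ss (ww T).1) 6 - (ww T).2)) := by
    funext T
    unfold q0
    ring
  rw [e]
  exact ((bo_e 7).mul (bo_e 7) (by omega)).sub
    (BO.cmul 4 ((bo_e 8).mul ((bo_e 6).sub bo_t) (by omega)))

theorem bo_I : BO 20 (fun T => fI (ek (ss (ww T).1)) (ww T).2) := by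
  have e : (fun T => fI (ek (ss (ww T).1)) (ww T).2) =
      fun T => (12 * (q4 (ek (ss (ww T).1)) (ww T).2 * q0 (ek (ss (ww T).1)) (ww T).2) -
        3 * (q3 (ek (ss (ww T).1)) (ww T).2 * q1 (ek (ss (ww T).1)) (ww T).2)) +
        q2 (ek (ss (ww T).1)) (ww T).2 * q2 (ek (ss (ww T).1)) (ww T).2 := by
    funext T
    unfold fI
    ring
  rw [e]
  exact ((BO.cmul 12 (bo_q4.mul bo_q0 (by omega))).sub
    (BO.cmul 3 (bo_q3.mul bo_q1 (by omega)))).add (bo_q2.mul bo_q2 (by omega))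

theorem bo_J : BO 30 (fun T => fJ (ek (ss (ww T).1)) (ww T).2) := by
  have e : (fun T => fJ (ek (ss (ww T).1)) (ww T).2) =
      fun T => (((72 * ((q4 (ek (ss (ww T).1)) (ww T).2 * q2 (ek (ss (ww T).1)) (ww T).2) *
          q0 (ek (ss (ww T).1)) (ww T).2) +
        9 * ((q3 (ek (ss (ww T).1)) (ww T).2 * q2 (ek (ss (ww T).1)) (ww T).2) *
          q1 (ek (ss (ww T).1)) (ww T).2)) -
        27 * (q4 (ek (ss (ww T).1)) (ww T).2 * (q1 (ek (ss (ww T).1)) (ww T).2 *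
          q1 (ek (ss (ww T).1)) (ww T).2))) -
        27 * (q0 (ek (ss (ww T).1)) (ww T).2 * (q3 (ek (ss (ww T).1)) (ww T).2 *
          q3 (ek (ss (ww T).1)) (ww T).2))) -
        2 * (q2 (ek (ss (ww T).1)) (ww T).2 * (q2 (ek (ss (ww T).1)) (ww T).2 *
          q2 (ek (ss (ww T).1)) (ww T).2)) := by
    funext T
    unfold fJ
    ring
  rw [e]
  exact ((((BO.cmul 72 ((bo_q4.mul bo_q2 (l := 16) (by omega)).mul bo_q0 (by omega))).add
    (BO.cmul 9 ((bo_q3.mul bo_q2 (l := 18) (by omega)).mul bo_q1 (by omega)))).sub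
    (BO.cmul 27 (bo_q4.mul (bo_q1.mul bo_q1 (l := 24) (by omega)) (by omega)))).sub
    (BO.cmul 27 (bo_q0.mul (bo_q3.mul bo_q3 (l := 16) (by omega)) (by omega)))).sub
    (BO.cmul 2 (bo_q2.mul (bo_q2.mul bo_q2 (l := 20) (by omega)) (by omega)))

theorem cong_ww (T : (Fin 6 → ℕ) × ℕ) : Cong (ww T) := by
  refine ⟨fun i => ⟨(T.1 i : ℤ), ?_⟩, ⟨(T.2 : ℤ), ?_⟩⟩
  · show (ub i + MM * (T.1 i : ℤ)) - ub i = _
    ring
  · show (3 + MM * (T.2 : ℤ)) - 3 = _
    ring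

end Pool.Helper17.R8.B84

namespace Pool.Helper17.R8

open Pool.Helper17.R8.B84

theorem st_BND (hR : ST_REL) : ST_BND := by
  obtain ⟨C, hC, H⟩ := bo_I
  obtain ⟨D, hD, G⟩ := bo_J
  refine ⟨C + D + 1, by linarith, fun m hm T hT => ?_⟩
  obtain ⟨e1, e2, -, -⟩ := hR (ww T) (cong_ww T)
  have h1 := H m hm T hT
  have h2 := G m hm T hT
  have m20 : (0 : ℤ) ≤ (m : ℤ) ^ 20 := by positivity
  have m30 : (0 : ℤ) ≤ (m : ℤ) ^ 30 := by positivity
  have a1 : 48 * |cA (ww T)| ≤ C * (m : ℤ) ^ 20 := by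
    refine le_trans (le_of_eq ?_) h1
    have : |48 * cA (ww T)| = |fI (ek (ss (ww T).1)) (ww T).2| := by rw [e1, abs_neg]
    rw [← this, abs_mul]
    norm_num
  have a2 : 1728 * |cB (ww T)| ≤ D * (m : ℤ) ^ 30 := by
    refine le_trans (le_of_eq ?_) h2
    have : |1728 * cB (ww T)| = |fJ (ek (ss (ww T).1)) (ww T).2| := by rw [e2, abs_neg]
    rw [← this, abs_mul]
    norm_num
  have b1 : 0 ≤ D * (m : ℤ) ^ 20 := mul_nonneg hD m20
  have b2 : 0 ≤ C * (m : ℤ) ^ 30 := mul_nonneg hC m30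
  have c1 := abs_nonneg (cA (ww T))
  have c2 := abs_nonneg (cB (ww T))
  constructor
  · rw [add_mul, add_mul]
    linarith
  · rw [add_mul, add_mul]
    linarith

end Pool.Helper17.R8
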